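import Pool.Agent.L0h45.AV.Stm

/-!
# Project AV: the main region (module RGP; helper56)
-/

set_option autoImplicit false
set_option linter.all false

open Finset MeasureTheory Filter Topology

namespace Pool.Agent.L0h56.AV

open Pool.Agent.N874.PP (Tup chA chB gq tau)
open Pool.Agent.L0h45.LR (Cgr)
open Pool.Agent.L0h45.AV

theorem chA_toR (B : Tup ℤ) : chA (toR B) = ((chA B : ℤ) : ℝ) := by
  simp only [chA, toR]
  push_cast
  ring

theorem chB_toR (B : Tup ℤ) : chB (toR B) = ((chB B : ℤ) : ℝ) := by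
  simp only [chB, toR]
  push_cast
  ring

/-- scaling -/
theorem Bp_div (p v θ C S X : ℝ) :
    Bp p v (θ / X) (C / X) (S / X) = ⟨(Bp p v θ C S).x / X, (Bp p v θ C S).y / X, (Bp p v θ C S).c / X,
      (Bp p v θ C S).z / X, (Bp p v θ C S).w / X⟩ := by
  simp only [Bp]
  congr 1 <;> ring

/-- The cell with the corner `f` and side `h`. -/
def Cell (f : Fin 4 → ℝ) (h X : ℝ) (B : Tup ℤ) : Prop :=
  Real.exp (f 0) * X ≤ B.x ∧ (B.x : ℝ) ≤ (Real.exp (f 0) + Real.exp (f 0) * (Real.exp h - 1)) * X ∧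
  f 1 * X ≤ B.y ∧ (B.y : ℝ) ≤ (f 1 + h) * X ∧ f 2 * X ≤ B.c ∧ (B.c : ℝ) ≤ (f 2 + h) * X ∧
  f 3 * X ≤ B.z ∧ (B.z : ℝ) ≤ (f 3 + h) * X

theorem cell_of (f : Fin 4 → ℝ) (h X δ : ℝ) (B : Tup ℤ) (p v θ C S : ℝ) (hX : 0 < X) (hδ : 0 < δ)
    (hB : toR B = Bp p v θ C S) (hx : δ * X ≤ B.x)
    (hf : ∀ i, f i ≤ cd (Bp p v (θ / X) (C / X) (S / X)) i ∧
      cd (Bp p v (θ / X) (C / X) (S / X)) i ≤ f i + h) : Cell f h X B := by
  have h0 := hf 0
  have h1 := hf 1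
  have h2 := hf 2
  have h3 := hf 3
  rw [Bp_div, ← hB] at h0 h1 h2 h3
  simp only [cd, toR, Matrix.cons_val_zero, Matrix.cons_val_one, Matrix.cons_val] at h0 h1 h2 h3
  have hxX : 0 < (B.x : ℝ) / X := by
    have : 0 < (B.x : ℝ) := lt_of_lt_of_le (by positivity) hx
    positivity
  refine ⟨?_, ?_, ?_, ?_, ?_, ?_, ?_, ?_⟩
  · have := (Real.le_log_iff_exp_le hxX).mp h0.1
    rwa [le_div_iff₀ hX] at this
  · have := (Real.log_le_iff_le_exp hxX).mp h0.2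
    rw [Real.exp_add, div_le_iff₀ hX] at this
    calc (B.x : ℝ) ≤ Real.exp (f 0) * Real.exp h * X := this
      _ = _ := by ring
  · have := h1.1
    rwa [le_div_iff₀ hX] at this
  · have := h1.2
    rwa [div_le_iff₀ hX] at this
  · have := h2.1
    rwa [le_div_iff₀ hX] at this
  · have := h2.2
    rwa [div_le_iff₀ hX] at this
  · have := h3.1
    rwa [le_div_iff₀ hX] at this
  · have := h3.2
    rwa [div_le_iff₀ hX] at this

theorem final_alg (n h e V N M E : ℝ) (hn : 0 ≤ n) (hh0 : 0 < h) (hh : h < e) (he1 : e ≤ 1) (hV : V ≤ Real.pi ^ 2 / 2)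
    (hF : n * h ^ 4 ≤ V + e) (hN : 0 ≤ N) (hM : 1 ≤ M) (hE : 0 < E) (heE : e ≤ E / (16 * (1 + N))) :
    n * ((1 + N) * ((Real.exp h - 1) * h ^ 3) / M ^ 4 + E / (2 * (n + 1))) ≤
      (1 + N) * (Real.pi ^ 2 / 2) / M ^ 4 + E := by
  have hexp : Real.exp h - 1 ≤ h + h ^ 2 := by
    have h1 := Real.abs_exp_sub_one_sub_id_le (x := h) (by rw [abs_of_pos hh0]; linarith)
    have h2 := (abs_le.mp h1).2
    linarith
  have he0 : 0 < e := hh0.trans hh
  have hM4 : 1 ≤ M ^ 4 := one_le_pow₀ hM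
  have hM40 : 0 < M ^ 4 := by linarith
  have hpi : Real.pi ^ 2 / 2 ≤ 5 := by
    have h1 := Real.pi_lt_d2
    have h2 := Real.pi_pos
    nlinarith
  have h1 : n * ((Real.exp h - 1) * h ^ 3) ≤ Real.pi ^ 2 / 2 + 7 * e := by
    calc n * ((Real.exp h - 1) * h ^ 3) ≤ n * ((h + h ^ 2) * h ^ 3) := by gcongr
      _ = (n * h ^ 4) * (1 + h) := by ring
      _ ≤ (Real.pi ^ 2 / 2 + e) * (1 + e) := by
          apply mul_le_mul
          · linarith
          · linarith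
          · linarith
          · positivity
      _ ≤ Real.pi ^ 2 / 2 + 7 * e := by nlinarith
  have h2 : n * (E / (2 * (n + 1))) ≤ E / 2 := by
    rw [← mul_div_assoc, div_le_div_iff₀ (by positivity) (by norm_num)]
    nlinarith
  have h3 : (1 + N) * (7 * e) / M ^ 4 ≤ E / 2 := by
    have h4 : (1 + N) * (7 * e) / M ^ 4 ≤ (1 + N) * (7 * e) := div_le_self (by positivity) hM4
    rw [le_div_iff₀ (by positivity)] at heE
    nlinarith
  calc n * ((1 + N) * ((Real.exp h - 1) * h ^ 3) / M ^ 4 + E / (2 * (n + 1)))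
      = (1 + N) * (n * ((Real.exp h - 1) * h ^ 3)) / M ^ 4 + n * (E / (2 * (n + 1))) := by ring
    _ ≤ (1 + N) * (Real.pi ^ 2 / 2 + 7 * e) / M ^ 4 + E / 2 := by gcongr
    _ = (1 + N) * (Real.pi ^ 2 / 2) / M ^ 4 + (1 + N) * (7 * e) / M ^ 4 + E / 2 := by ring
    _ ≤ _ := by linarith

theorem t_RGP (hB : S_BDS) (hC : S_CEL) (hCov : S_COV) (hV : S_VOL) (hN : S_NBH) : S_RGP := by
  classical
  obtain ⟨η, hη0, hηt, hcel⟩ := hC
  refine ⟨η, hη0, hηt, ?_⟩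
  intro Z M hM a T δ ε ha hT hδ hε
  obtain ⟨hKc, hU⟩ := hN T δ hT hδ
  have hηZ := hη0 Z
  obtain ⟨e, he⟩ : ∃ e : ℝ, e = min 1 (ε / (16 * (1 + η Z))) := ⟨_, rfl⟩
  have he0 : 0 < e := by rw [he]; exact lt_min one_pos (by positivity)
  have he1 : e ≤ 1 := by rw [he]; exact min_le_left _ _
  have heE : e ≤ ε / (16 * (1 + η Z)) := by rw [he]; exact min_le_right _ _
  obtain ⟨h, F, U, hh0, hhe, hUo, hKU, hF, hFc⟩ := hCov _ hKc e he0
  obtain ⟨a₀, ha₀, hnear⟩ := hU U hUo hKU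
  have hvol : (volume ((fun q => cd (Bq q)) '' Dc T δ)).toReal ≤ Real.pi ^ 2 / 2 := by
    have h1 : volume ((fun q => cd (Bq q)) '' Dc T δ) ≤ ENNReal.ofReal (Real.pi ^ 2 / 2) :=
      (measure_mono (Set.image_mono fun q hq => hq.1)).trans hV
    exact ENNReal.toReal_le_of_le_ofReal (by positivity) h1
  have hexp0 : 0 < Real.exp h - 1 := by
    have := Real.add_one_lt_exp hh0.ne'
    linarith
  -- the cells
  have hf : ∀ f : Fin 4 → ℝ, ∃ X₀ : ℝ, ∀ X ≥ X₀, ∀ β : Tup ℤ, Ok M a β → ∀ S : Finset (Tup ℤ),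
      (∀ B ∈ S, B.y ≠ 0 ∧ chA B = a ∧ Cgr M β B ∧ Cell f h X B) →
      (S.card : ℝ) ≤ ((1 + η Z) * ((Real.exp h - 1) * h ^ 3) / (M : ℝ) ^ 4 + ε / (2 * ((F.card : ℝ) + 1))) * X ^ 3 := by
    intro f
    obtain ⟨X₀, hX₀⟩ := hcel Z M hM a (|f 1| + |f 2| + |f 3| + 1) (Real.exp (f 0))
      (Real.exp (f 0) * (Real.exp h - 1)) h (ε / (2 * ((F.card : ℝ) + 1))) (by positivity) (Real.exp_pos _)
      (mul_pos (Real.exp_pos _) hexp0) hh0 (by positivity)
    refine ⟨X₀, fun X hX β hβ S hS => ?_⟩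
    have h1 := hX₀ X hX (f 1) (f 2) (f 3)
      (by linarith [abs_nonneg (f 1), abs_nonneg (f 2), abs_nonneg (f 3)])
      (by linarith [abs_nonneg (f 1), abs_nonneg (f 2), abs_nonneg (f 3)])
      (by linarith [abs_nonneg (f 1), abs_nonneg (f 2), abs_nonneg (f 3)]) β hβ S (by
        intro B hBS
        obtain ⟨h1, h2, h3, h4, h5, h6, h7, h8, h9, h10, h11⟩ := hS B hBS
        exact ⟨h1, h2, h3, h4, h5, h6, h7, h8, h9, h10, h11⟩)
    have e1 : (1 + η Z) * (Real.exp (f 0) * (Real.exp h - 1) * h ^ 3) / (Real.exp (f 0) * (M : ℝ) ^ 4) =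
        (1 + η Z) * ((Real.exp h - 1) * h ^ 3) / (M : ℝ) ^ 4 := by
      have := Real.exp_pos (f 0)
      have hM0 : (0 : ℝ) < M := by exact_mod_cast hM.pos
      field_simp
    rw [e1] at h1
    exact h1
  choose X₀ hX₀ using hf
  refine ⟨max (max 1 a) (max (4 * a / a₀) (∑ f ∈ F, |X₀ f|)), ?_⟩
  intro X hX β hβ S hS
  have hX1 : 1 ≤ X := ((le_max_left _ _).trans (le_max_left _ _)).trans hX
  have hX2 : (a : ℝ) ≤ X := ((le_max_right _ _).trans (le_max_left _ _)).trans hX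
  have hX3 : 4 * (a : ℝ) / a₀ ≤ X := ((le_max_left _ _).trans (le_max_right _ _)).trans hX
  have hX4 : ∑ f ∈ F, |X₀ f| ≤ X := ((le_max_right _ _).trans (le_max_right _ _)).trans hX
  have hXf : ∀ f ∈ F, X₀ f ≤ X := fun f hf =>
    ((le_abs_self _).trans (Finset.single_le_sum (f := fun f => |X₀ f|) (fun _ _ => abs_nonneg _) hf)).trans hX4
  have hX0 : 0 < X := by linarith
  have haR : (0 : ℝ) < a := by exact_mod_cast ha
  have hXX : X ≤ X ^ 2 := by nlinarith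
  -- every tuple lies in a cell
  have hcov : ∀ B ∈ S, ∃ f ∈ F, Cell f h X B := by
    intro B hBS
    obtain ⟨h1, h2, h3, h4, h5, v, hvT, p, θ, C, S', hFD, hBp⟩ := hS B hBS
    have hA : chA (Bp p v θ C S') = a := by
      rw [← hBp, chA_toR, h2]
    have hBb : |chB (Bp p v θ C S')| ≤ X ^ 3 := by
      rw [← hBp, chB_toR]
      exact h4
    have hθ := (hB p v θ C S' X hFD hX0.le (by rw [hA]; exact haR.le) (by rw [hA]; linarith) hBb).1
    have hA' := chA_Bp p v θ C S' hFD.2.2.1.ne'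
    rw [hA] at hA'
    have hq : C ^ 2 + S' ^ 2 = 12 * θ ^ 2 + 4 * a := by linarith
    have hcd := hnear p v (θ / X) (C / X) (S' / X) hFD hvT (by
      rw [abs_div, abs_of_pos hX0, div_le_one hX0]
      exact hθ) (by
      rw [div_pow, div_pow, div_pow, ← add_div, hq, ← mul_div_assoc]
      gcongr
      linarith) (by
      rw [div_pow, div_pow, div_pow, ← add_div, hq, add_div, ← mul_div_assoc]
      have : 4 * (a : ℝ) / X ^ 2 ≤ a₀ := by
        rw [div_le_iff₀ ha₀] at hX3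
        rw [div_le_iff₀ (by positivity)]
        nlinarith
      linarith) (by
      rw [Bp_div, ← hBp]
      show δ ≤ (B.x : ℝ) / X
      rw [le_div_iff₀ hX0]
      exact h5)
    obtain ⟨f, hfF, hfc⟩ := hF _ hcd
    exact ⟨f, hfF, cell_of f h X δ B p v θ C S' hX0 hδ hBp h5 hfc⟩
  have hsub : S ⊆ F.biUnion (fun f => S.filter (fun B => Cell f h X B)) := by
    intro B hBS
    obtain ⟨f, hfF, hc⟩ := hcov B hBS
    exact Finset.mem_biUnion.mpr ⟨f, hfF, Finset.mem_filter.mpr ⟨hBS, hc⟩⟩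
  have hcard : (S.card : ℝ) ≤ ∑ f ∈ F, ((S.filter (fun B => Cell f h X B)).card : ℝ) := by
    have h1 := (Finset.card_le_card hsub).trans Finset.card_biUnion_le
    exact_mod_cast h1
  calc (S.card : ℝ) ≤ ∑ f ∈ F, ((S.filter (fun B => Cell f h X B)).card : ℝ) := hcard
    _ ≤ ∑ f ∈ F, ((1 + η Z) * ((Real.exp h - 1) * h ^ 3) / (M : ℝ) ^ 4 + ε / (2 * ((F.card : ℝ) + 1))) * X ^ 3 := by
        refine Finset.sum_le_sum fun f hfF => ?_
        refine hX₀ f X (hXf f hfF) β hβ _ fun B hBf => ?_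
        obtain ⟨hBS, hc⟩ := Finset.mem_filter.mp hBf
        obtain ⟨h1, h2, h3, -⟩ := hS B hBS
        exact ⟨h1, h2, h3, hc⟩
    _ = ((F.card : ℝ) * ((1 + η Z) * ((Real.exp h - 1) * h ^ 3) / (M : ℝ) ^ 4 +
          ε / (2 * ((F.card : ℝ) + 1)))) * X ^ 3 := by
        rw [Finset.sum_const, nsmul_eq_mul]
        ring
    _ ≤ ((1 + η Z) * (Real.pi ^ 2 / 2) / (M : ℝ) ^ 4 + ε) * X ^ 3 := by
        apply mul_le_mul_of_nonneg_right _ (by positivity)
        exact final_alg (F.card : ℝ) h e _ (η Z) M ε (Nat.cast_nonneg _) hh0 hhe he1 hvol hFc hηZ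
          (by exact_mod_cast hM.pos) hε heE

end Pool.Agent.L0h56.AV
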