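import Pool.Agent.L0h45.AV.Stm3
import Pool.Agent.L0h56.AV.RGP

/-!
# Project AV: the main region, any sign of `a` (module RGPn; helper56)
-/

set_option autoImplicit false
set_option linter.all false

open Finset MeasureTheory Filter Topology

namespace Pool.Agent.L0h56.AV

open Pool.Agent.N874.PP (Tup chA chB gq tau)
open Pool.Agent.L0h45.LR (Cgr)
open Pool.Agent.L0h45.AV

/-- `|θ|³ ≤ X³ + |a| |θ|` -/
theorem theta_le (a θ X c : ℝ) (hc : 0 < c) (hX1 : 1 ≤ X) (hX : (1 + c) * |a| ≤ c * X)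
    (h : |-θ ^ 3 - a * θ| ≤ X ^ 3) : |θ| ≤ (1 + c) * X := by
  by_contra hcon
  rw [not_le] at hcon
  have h0 : 0 < |θ| := lt_trans (by positivity) hcon
  have h1 : |-θ ^ 3 - a * θ| = |θ| * |θ ^ 2 + a| := by
    rw [← abs_mul, ← abs_neg]
    congr 1
    ring
  have h2 : θ ^ 2 - |a| ≤ |θ ^ 2 + a| := by
    have h3 := neg_abs_le a
    have h4 := le_abs_self (θ ^ 2 + a)
    linarith
  have h3 : ((1 + c) * X) ^ 2 < θ ^ 2 := by
    rw [← sq_abs θ]
    exact pow_lt_pow_left₀ hcon (by positivity) (by norm_num)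
  have ha0 := abs_nonneg a
  have h4 : X ^ 2 < θ ^ 2 - |a| := by
    have h5 : |a| ≤ c * X := by
      have : |a| ≤ (1 + c) * |a| := by nlinarith
      linarith
    have h6 : c * X ≤ c * X ^ 2 := by
      have : X ≤ X ^ 2 := by nlinarith
      exact mul_le_mul_of_nonneg_left this hc.le
    have h7 : X ^ 2 + c * X ^ 2 ≤ ((1 + c) * X) ^ 2 := by
      have : 0 ≤ c * X ^ 2 + c ^ 2 * X ^ 2 := by positivity
      nlinarith
    linarith
  have h5 : X < |θ| := by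
    have : X ≤ (1 + c) * X := by nlinarith
    linarith
  have h6 : X ^ 3 < |θ| * |θ ^ 2 + a| := by
    have h7 : X * X ^ 2 < |θ| * (θ ^ 2 - |a|) :=
      mul_lt_mul h5 h4.le (by positivity) h0.le
    have h8 : |θ| * (θ ^ 2 - |a|) ≤ |θ| * |θ ^ 2 + a| := mul_le_mul_of_nonneg_left h2 h0.le
    have h9 : X ^ 3 = X * X ^ 2 := by ring
    linarith
  rw [h1] at h
  linarith

theorem t_RGPn (_ : S_BDSn) (hC : S_CEL) (hCov : S_COV) (hV : S_VOL) (hN : S_NBHn) : S_RGPn := by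
  classical
  obtain ⟨η, hη0, hηt, hcel⟩ := hC
  refine ⟨η, hη0, hηt, ?_⟩
  intro Z M hM a T δ ε hT hδ hε
  obtain ⟨hKc, hU⟩ := hN T δ hT hδ
  have hηZ := hη0 Z
  obtain ⟨e, he⟩ : ∃ e : ℝ, e = min 1 (ε / (16 * (1 + η Z))) := ⟨_, rfl⟩
  have he0 : 0 < e := by rw [he]; exact lt_min one_pos (by positivity)
  have he1 : e ≤ 1 := by rw [he]; exact min_le_left _ _
  have heE : e ≤ ε / (16 * (1 + η Z)) := by rw [he]; exact min_le_right _ _
  obtain ⟨h, F, U, hh0, hhe, hUo, hKU, hF, hFc⟩ := hCov _ hKc e he0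
  obtain ⟨a₀, ha₀, hnear⟩ := hU U hUo hKU
  have hvol : (volume ((fun q => cd (Bq q)) '' Dc T δ)).toReal ≤ Real.pi ^ 2 / 2 := by
    have h1 : volume ((fun q => cd (Bq q)) '' Dc T δ) ≤ ENNReal.ofReal (Real.pi ^ 2 / 2) :=
      (measure_mono (Set.image_mono fun q hq => hq.1)).trans hV
    exact ENNReal.toReal_le_of_le_ofReal (by positivity) h1
  have hexp0 : 0 < Real.exp h - 1 := by
    have := Real.add_one_lt_exp hh0.ne'
    linarith
  -- the cells
  have hf : ∀ f : Fin 4 → ℝ, ∃ X₀ : ℝ, ∀ X ≥ X₀, ∀ β : Tup ℤ, Ok M a β → ∀ S : Finset (Tup ℤ),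
      (∀ B ∈ S, B.y ≠ 0 ∧ chA B = a ∧ Cgr M β B ∧ Cell f h X B) →
      (S.card : ℝ) ≤ ((1 + η Z) * ((Real.exp h - 1) * h ^ 3) / (M : ℝ) ^ 4 + ε / (2 * ((F.card : ℝ) + 1))) * X ^ 3 := by
    intro f
    obtain ⟨X₀, hX₀⟩ := hcel Z M hM a (|f 1| + |f 2| + |f 3| + 1) (Real.exp (f 0))
      (Real.exp (f 0) * (Real.exp h - 1)) h (ε / (2 * ((F.card : ℝ) + 1))) (by positivity) (Real.exp_pos _)
      (mul_pos (Real.exp_pos _) hexp0) hh0 (by positivity)
    refine ⟨X₀, fun X hX β hβ S hS => ?_⟩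
    have h1 := hX₀ X hX (f 1) (f 2) (f 3)
      (by linarith [abs_nonneg (f 1), abs_nonneg (f 2), abs_nonneg (f 3)])
      (by linarith [abs_nonneg (f 1), abs_nonneg (f 2), abs_nonneg (f 3)])
      (by linarith [abs_nonneg (f 1), abs_nonneg (f 2), abs_nonneg (f 3)]) β hβ S (by
        intro B hBS
        obtain ⟨h1, h2, h3, h4, h5, h6, h7, h8, h9, h10, h11⟩ := hS B hBS
        exact ⟨h1, h2, h3, h4, h5, h6, h7, h8, h9, h10, h11⟩)
    have e1 : (1 + η Z) * (Real.exp (f 0) * (Real.exp h - 1) * h ^ 3) / (Real.exp (f 0) * (M : ℝ) ^ 4) =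
        (1 + η Z) * ((Real.exp h - 1) * h ^ 3) / (M : ℝ) ^ 4 := by
      have := Real.exp_pos (f 0)
      have hM0 : (0 : ℝ) < M := by exact_mod_cast hM.pos
      field_simp
    rw [e1] at h1
    exact h1
  choose X₀ hX₀ using hf
  refine ⟨max (max 1 ((1 + a₀) * |(a : ℝ)| / a₀)) (max (4 * |(a : ℝ)| / a₀) (∑ f ∈ F, |X₀ f|)), ?_⟩
  intro X hX β hβ S hS
  have hX1 : 1 ≤ X := ((le_max_left _ _).trans (le_max_left _ _)).trans hX
  have hX2 : (1 + a₀) * |(a : ℝ)| / a₀ ≤ X := ((le_max_right _ _).trans (le_max_left _ _)).trans hX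
  have hX3 : 4 * |(a : ℝ)| / a₀ ≤ X := ((le_max_left _ _).trans (le_max_right _ _)).trans hX
  have hX4 : ∑ f ∈ F, |X₀ f| ≤ X := ((le_max_right _ _).trans (le_max_right _ _)).trans hX
  have hXf : ∀ f ∈ F, X₀ f ≤ X := fun f hf =>
    ((le_abs_self _).trans (Finset.single_le_sum (f := fun f => |X₀ f|) (fun _ _ => abs_nonneg _) hf)).trans hX4
  have hX0 : 0 < X := by linarith
  have hXX : X ≤ X ^ 2 := by nlinarith
  -- every tuple lies in a cell
  have hcov : ∀ B ∈ S, ∃ f ∈ F, Cell f h X B := by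
    intro B hBS
    obtain ⟨h1, h2, h3, h4, h5, v, hvT, p, θ, C, S', hFD, hBp⟩ := hS B hBS
    have hA : chA (Bp p v θ C S') = a := by
      rw [← hBp, chA_toR, h2]
    have hBb : |chB (Bp p v θ C S')| ≤ X ^ 3 := by
      rw [← hBp, chB_toR]
      exact h4
    have hA' := chA_Bp p v θ C S' hFD.2.2.1.ne'
    rw [hA] at hA'
    have hq : C ^ 2 + S' ^ 2 = 12 * θ ^ 2 + 4 * a := by linarith
    have hθ : |θ| ≤ (1 + a₀) * X := by
      rw [chB_Bp p v θ C S' hFD.2.2.1.ne', ← hA'] at hBb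
      refine theta_le a θ X a₀ ha₀ hX1 ?_ hBb
      rw [div_le_iff₀ ha₀] at hX2
      linarith
    have hcd := hnear p v (θ / X) (C / X) (S' / X) hFD hvT (by
      rw [abs_div, abs_of_pos hX0, div_le_iff₀ hX0]
      exact hθ) (by
      have e1 : (C / X) ^ 2 + (S' / X) ^ 2 - 12 * (θ / X) ^ 2 = 4 * a / X ^ 2 := by
        rw [div_pow, div_pow, div_pow, ← add_div, hq]
        ring
      rw [e1, abs_div, abs_of_pos (by positivity : (0 : ℝ) < X ^ 2), abs_mul,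
        abs_of_pos (by norm_num : (0 : ℝ) < 4)]
      rw [div_le_iff₀ ha₀] at hX3
      rw [div_le_iff₀ (by positivity)]
      nlinarith) (by
      rw [Bp_div, ← hBp]
      show δ ≤ (B.x : ℝ) / X
      rw [le_div_iff₀ hX0]
      exact h5)
    obtain ⟨f, hfF, hfc⟩ := hF _ hcd
    exact ⟨f, hfF, cell_of f h X δ B p v θ C S' hX0 hδ hBp h5 hfc⟩
  have hsub : S ⊆ F.biUnion (fun f => S.filter (fun B => Cell f h X B)) := by
    intro B hBS
    obtain ⟨f, hfF, hc⟩ := hcov B hBS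
    exact Finset.mem_biUnion.mpr ⟨f, hfF, Finset.mem_filter.mpr ⟨hBS, hc⟩⟩
  have hcard : (S.card : ℝ) ≤ ∑ f ∈ F, ((S.filter (fun B => Cell f h X B)).card : ℝ) := by
    have h1 := (Finset.card_le_card hsub).trans Finset.card_biUnion_le
    exact_mod_cast h1
  calc (S.card : ℝ) ≤ ∑ f ∈ F, ((S.filter (fun B => Cell f h X B)).card : ℝ) := hcard
    _ ≤ ∑ f ∈ F, ((1 + η Z) * ((Real.exp h - 1) * h ^ 3) / (M : ℝ) ^ 4 + ε / (2 * ((F.card : ℝ) + 1))) * X ^ 3 := by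
        refine Finset.sum_le_sum fun f hfF => ?_
        refine hX₀ f X (hXf f hfF) β hβ _ fun B hBf => ?_
        obtain ⟨hBS, hc⟩ := Finset.mem_filter.mp hBf
        obtain ⟨h1, h2, h3, -⟩ := hS B hBS
        exact ⟨h1, h2, h3, hc⟩
    _ = ((F.card : ℝ) * ((1 + η Z) * ((Real.exp h - 1) * h ^ 3) / (M : ℝ) ^ 4 +
          ε / (2 * ((F.card : ℝ) + 1)))) * X ^ 3 := by
        rw [Finset.sum_const, nsmul_eq_mul]
        ring
    _ ≤ ((1 + η Z) * (Real.pi ^ 2 / 2) / (M : ℝ) ^ 4 + ε) * X ^ 3 := by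
        apply mul_le_mul_of_nonneg_right _ (by positivity)
        exact final_alg (F.card : ℝ) h e _ (η Z) M ε (Nat.cast_nonneg _) hh0 hhe he1 hvol hFc hηZ
          (by exact_mod_cast hM.pos) hε heE

end Pool.Agent.L0h56.AV
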