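import Pool.Agent.L0h45.AV.Stm
import Pool.Agent.Helper112.Arith

/-!
# Project AV: the pairs with a common divisor prime to the modulus (module WS; helper56)
-/

set_option autoImplicit false
set_option linter.all false

open Finset Filter Topology

namespace Pool.Agent.L0h56.AV

open Pool.Agent.L0h45.LR (tn)
open Pool.Agent.L0h45.AV (Md S_WS)

/-- integers in a residue class and in an interval -/
theorem card_cls (S : Finset ℤ) (u l : ℝ) (D : ℕ) (hD : 1 ≤ D) (hl : 0 ≤ l)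
    (h1 : ∀ x ∈ S, u ≤ (x : ℝ) ∧ (x : ℝ) ≤ u + l) (h2 : ∀ x ∈ S, ∀ y ∈ S, (D : ℤ) ∣ x - y) :
    (S.card : ℝ) ≤ l / D + 1 := by
  have hDr : (0 : ℝ) < D := by exact_mod_cast hD
  have hDz : (0 : ℤ) < D := by exact_mod_cast hD
  rcases S.eq_empty_or_nonempty with rfl | hne
  · simp
    positivity
  · obtain ⟨m, hm⟩ : ∃ m, m = S.min' hne := ⟨_, rfl⟩
    have hmS : m ∈ S := by rw [hm]; exact S.min'_mem hne
    have hmin : ∀ x ∈ S, m ≤ x := fun x hx => by rw [hm]; exact S.min'_le x hx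
    have hc : S.card ≤ (Finset.range (⌊l / D⌋₊ + 1)).card := by
      refine Finset.card_le_card_of_injOn (fun x => ((x - m) / D).toNat) ?_ ?_
      · intro x hx
        have hx' : x ∈ S := hx
        rw [Finset.mem_coe, Finset.mem_range, Nat.lt_succ_iff]
        apply Nat.le_floor
        have h3 : 0 ≤ (x - m) / (D : ℤ) := Int.ediv_nonneg (by have := hmin x hx'; omega) hDz.le
        have h4 : ((((x - m) / (D : ℤ)).toNat : ℕ) : ℝ) = (((x - m) / (D : ℤ) : ℤ) : ℝ) := by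
          have := Int.toNat_of_nonneg h3
          exact_mod_cast this
        show ((((x - m) / (D : ℤ)).toNat : ℕ) : ℝ) ≤ l / D
        rw [h4, le_div_iff₀ hDr]
        have h5 : (x - m) / (D : ℤ) * D = x - m := Int.ediv_mul_cancel (h2 x hx' m hmS)
        have h6 : (((x - m) / (D : ℤ) : ℤ) : ℝ) * D = (x : ℝ) - m := by exact_mod_cast h5
        rw [h6]
        have h7 := (h1 x hx').2
        have h8 := (h1 m hmS).1
        linarith
      · intro x hx y hy hxy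
        have hx' : x ∈ S := hx
        have hy' : y ∈ S := hy
        have h3 : 0 ≤ (x - m) / (D : ℤ) := Int.ediv_nonneg (by have := hmin x hx'; omega) hDz.le
        have h3' : 0 ≤ (y - m) / (D : ℤ) := Int.ediv_nonneg (by have := hmin y hy'; omega) hDz.le
        have hxy' : ((x - m) / (D : ℤ)).toNat = ((y - m) / (D : ℤ)).toNat := hxy
        have h4 : (x - m) / (D : ℤ) = (y - m) / (D : ℤ) := by omega
        have h5 : (x - m) / (D : ℤ) * D = x - m := Int.ediv_mul_cancel (h2 x hx' m hmS)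
        have h5' : (y - m) / (D : ℤ) * D = y - m := Int.ediv_mul_cancel (h2 y hy' m hmS)
        rw [h4, h5'] at h5
        omega
    rw [Finset.card_range] at hc
    calc (S.card : ℝ) ≤ ((⌊l / D⌋₊ + 1 : ℕ) : ℝ) := by exact_mod_cast hc
      _ ≤ l / D + 1 := by
          push_cast
          have := Nat.floor_le (show 0 ≤ l / D by positivity)
          linarith

/-- the summable sequence -/
noncomputable def f1 (g : ℕ) : ℝ := (tn g : ℝ) * √(g : ℝ) / (g : ℝ) ^ 2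

/-- the sequence with limit zero -/
noncomputable def f2 (g : ℕ) : ℝ := (tn g : ℝ) * √(g : ℝ) / (g : ℝ)

theorem f1_nonneg (g : ℕ) : 0 ≤ f1 g := by unfold f1; positivity

theorem f2_nonneg (g : ℕ) : 0 ≤ f2 g := by unfold f2; positivity

theorem summable_f1 : Summable f1 := by
  obtain ⟨C, hC0, hC⟩ := Pool.Agent.Helper112.divisor_bound (1 / 4) (by norm_num)
  have h1 : Summable (fun n : ℕ => C * (1 / (n : ℝ) ^ (5 / 4 : ℝ))) :=
    (Real.summable_one_div_nat_rpow.mpr (by norm_num)).mul_left C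
  refine Summable.of_nonneg_of_le f1_nonneg (fun n => ?_) h1
  rcases Nat.eq_zero_or_pos n with rfl | hn
  · simp [f1]
  · have hn' : (0 : ℝ) < n := by exact_mod_cast hn
    unfold f1 tn
    have e1 : √(n : ℝ) = (n : ℝ) ^ (1 / 2 : ℝ) := Real.sqrt_eq_rpow _
    have e2 : (n : ℝ) ^ (1 / 4 : ℝ) * (n : ℝ) ^ (1 / 2 : ℝ) / (n : ℝ) ^ 2 = 1 / (n : ℝ) ^ (5 / 4 : ℝ) := by
      rw [← Real.rpow_natCast (n : ℝ) 2, ← Real.rpow_add hn', ← Real.rpow_sub hn',
        one_div ((n : ℝ) ^ (5 / 4 : ℝ)), ← Real.rpow_neg hn'.le]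
      norm_num
    rw [e1]
    calc (n.divisors.card : ℝ) * (n : ℝ) ^ (1 / 2 : ℝ) / (n : ℝ) ^ 2
        ≤ (C * (n : ℝ) ^ (1 / 4 : ℝ)) * (n : ℝ) ^ (1 / 2 : ℝ) / (n : ℝ) ^ 2 := by
          have := hC n hn
          gcongr
      _ = C * ((n : ℝ) ^ (1 / 4 : ℝ) * (n : ℝ) ^ (1 / 2 : ℝ) / (n : ℝ) ^ 2) := by ring
      _ = C * (1 / (n : ℝ) ^ (5 / 4 : ℝ)) := by rw [e2]

theorem tendsto_f2 : Tendsto f2 atTop (𝓝 0) := by
  obtain ⟨C, hC0, hC⟩ := Pool.Agent.Helper112.divisor_bound (1 / 4) (by norm_num)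
  have h1 : Tendsto (fun n : ℕ => C * (n : ℝ) ^ (-(1 / 4 : ℝ))) atTop (𝓝 0) := by
    have := ((tendsto_rpow_neg_atTop (by norm_num : (0 : ℝ) < 1 / 4)).comp
      tendsto_natCast_atTop_atTop).const_mul C
    simpa [Function.comp_def] using this
  refine squeeze_zero' (Eventually.of_forall f2_nonneg) ?_ h1
  filter_upwards [eventually_ge_atTop 1] with n hn
  have hn' : (0 : ℝ) < n := by exact_mod_cast hn
  unfold f2 tn
  have e1 : √(n : ℝ) = (n : ℝ) ^ (1 / 2 : ℝ) := Real.sqrt_eq_rpow _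
  have e2 : (n : ℝ) ^ (1 / 4 : ℝ) * (n : ℝ) ^ (1 / 2 : ℝ) / (n : ℝ) = (n : ℝ) ^ (-(1 / 4 : ℝ)) := by
    rw [← Real.rpow_add hn']
    nth_rw 2 [← Real.rpow_one (n : ℝ)]
    rw [← Real.rpow_sub hn']
    norm_num
  rw [e1]
  calc (n.divisors.card : ℝ) * (n : ℝ) ^ (1 / 2 : ℝ) / (n : ℝ)
      ≤ (C * (n : ℝ) ^ (1 / 4 : ℝ)) * (n : ℝ) ^ (1 / 2 : ℝ) / (n : ℝ) := by
        have := hC n hn
        gcongr
    _ = C * ((n : ℝ) ^ (1 / 4 : ℝ) * (n : ℝ) ^ (1 / 2 : ℝ) / (n : ℝ)) := by ring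
    _ = C * (n : ℝ) ^ (-(1 / 4 : ℝ)) := by rw [e2]

/-- the tail -/
noncomputable def et (Z : ℕ) : ℝ := ∑' k, f1 (k + Z)

theorem et_nonneg (Z : ℕ) : 0 ≤ et Z := tsum_nonneg fun k => f1_nonneg _

theorem tendsto_et : Tendsto et atTop (𝓝 0) := tendsto_sum_nat_add f1

theorem sum_f1_le (Z : ℕ) (G : Finset ℕ) (hG : ∀ g ∈ G, Z < g) : ∑ g ∈ G, f1 g ≤ et Z := by
  have h1 : ∑ g ∈ G, f1 g = ∑ k ∈ G.image (fun g => g - Z), f1 (k + Z) := by
    rw [Finset.sum_image]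
    · refine Finset.sum_congr rfl fun g hg => ?_
      have := hG g hg
      rw [Nat.sub_add_cancel this.le]
    · intro a ha b hb hab
      have h1 := hG a ha
      have h2 := hG b hb
      simp only at hab
      omega
  rw [h1]
  have hs : Summable (fun k => f1 (k + Z)) := (summable_nat_add_iff Z).mpr summable_f1
  exact hs.sum_le_tsum _ fun k _ => f1_nonneg _

/-- the algebra -/
theorem alg_bound (ρ σ κ ν M r : ℝ) (hρ : 0 ≤ ρ) (hσ : 0 ≤ σ) (hκ : 0 ≤ κ) (hν : 0 ≤ ν) (hM : 1 ≤ M)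
    (hr : 0 < r) (h : 1 ≤ κ * r) :
    (1 + ν / r) * ((ρ * r / M + 1) * (σ * r / M + 1)) ≤
      ρ * σ * r ^ 2 / M ^ 2 + (ρ + σ + κ + ν * (ρ + κ) * (σ + κ)) * r := by
  have hM0 : 0 < M := by linarith
  have a1 : ρ * r / M ≤ ρ * r := div_le_self (by positivity) hM
  have a2 : σ * r / M ≤ σ * r := div_le_self (by positivity) hM
  have a0 : 0 ≤ ρ * r / M := by positivity
  have b0 : 0 ≤ σ * r / M := by positivity
  have e1 : (ρ * r / M + 1) * (σ * r / M + 1) ≤ ρ * σ * r ^ 2 / M ^ 2 + (ρ + σ + κ) * r := by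
    have : (ρ * r / M + 1) * (σ * r / M + 1) = ρ * σ * r ^ 2 / M ^ 2 + ρ * r / M + σ * r / M + 1 := by
      field_simp
      ring
    rw [this]
    linarith
  have e2 : ν / r * ((ρ * r / M + 1) * (σ * r / M + 1)) ≤ ν * (ρ + κ) * (σ + κ) * r := by
    have e3 : (ρ * r / M + 1) * (σ * r / M + 1) ≤ ((ρ + κ) * r) * ((σ + κ) * r) := by
      apply mul_le_mul
      · linarith
      · linarith
      · linarith
      · positivity
    calc ν / r * ((ρ * r / M + 1) * (σ * r / M + 1)) ≤ ν / r * (((ρ + κ) * r) * ((σ + κ) * r)) :=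
          mul_le_mul_of_nonneg_left e3 (by positivity)
      _ = ν * (ρ + κ) * (σ + κ) * r := by
          field_simp
  calc (1 + ν / r) * ((ρ * r / M + 1) * (σ * r / M + 1)) =
      (ρ * r / M + 1) * (σ * r / M + 1) + ν / r * ((ρ * r / M + 1) * (σ * r / M + 1)) := by ring
    _ ≤ _ := by linarith

theorem t_WS : S_WS := by
  refine ⟨et, et_nonneg, tendsto_et, ?_⟩
  intro Z M hM κ ρ σ ν ε hκ hρ hσ hν hε
  obtain ⟨K, hK⟩ : ∃ K : ℝ, K = ρ + σ + κ + ν * (ρ + κ) * (σ + κ) := ⟨_, rfl⟩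
  have hK0 : 0 < K := by rw [hK]; positivity
  have hces := (Filter.Tendsto.cesaro tendsto_f2).eventually
    (gt_mem_nhds (show (0 : ℝ) < ε / (2 * κ * K) by positivity))
  obtain ⟨n₀, hn₀⟩ := eventually_atTop.mp hces
  refine ⟨max 1 (max (1 / κ) (n₀ / κ)), ?_⟩
  intro X hX x₁ y₁ x₀ y₀ Q g hQ
  have hX1 : 1 ≤ X := (le_max_left _ _).trans hX
  have hX2 : 1 / κ ≤ X := ((le_max_left _ _).trans (le_max_right _ _)).trans hX
  have hX3 : n₀ / κ ≤ X := ((le_max_right _ _).trans (le_max_right _ _)).trans hX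
  have hX0 : 0 < X := by linarith
  have hM1 : (1 : ℝ) ≤ M := by exact_mod_cast hM.pos
  have hM0 : (0 : ℝ) < M := by linarith
  -- the values of `g`
  have hgZ : ∀ q ∈ Q, Z < g q := by
    intro q hq
    obtain ⟨-, -, -, -, -, -, -, -, -, -, h1, h2, -, -⟩ := hQ q hq
    by_contra hcon
    rw [not_lt] at hcon
    obtain ⟨p, hp, hpg⟩ := Nat.exists_prime_and_dvd (show g q ≠ 1 by omega)
    have h3 : p ≤ Z := (Nat.le_of_dvd (by omega) hpg).trans hcon
    have h4 := hM.dvd p hp h3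
    exact hp.one_lt.ne' (Nat.Coprime.eq_one_of_dvd (h2.coprime_dvd_left hpg) h4)
  have hgX : ∀ q ∈ Q, (g q : ℝ) ≤ κ * X := by
    intro q hq
    obtain ⟨h1, -, h2, -, -, -, -, -, -, -, -, -, h3, -⟩ := hQ q hq
    have h4 := Int.le_of_dvd (abs_pos.mpr h1) ((dvd_abs _ _).mpr h3)
    have h5 : (g q : ℝ) ≤ |(q.1 : ℝ)| := by exact_mod_cast h4
    exact h5.trans h2
  -- the number of pairs
  have hcount : ∀ γ ∈ Q.image g, ((Q.filter (fun q => g q = γ)).card : ℝ) ≤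
      (ρ * X / (γ * M) + 1) * (σ * X / (γ * M) + 1) := by
    intro γ hγ
    obtain ⟨q₀, hq₀, hγq⟩ := Finset.mem_image.mp hγ
    have hγ1 : 1 ≤ γ := by
      have := hgZ q₀ hq₀
      omega
    have hcop : Nat.Coprime γ M := by
      obtain ⟨-, -, -, -, -, -, -, -, -, -, -, h2, -, -⟩ := hQ q₀ hq₀
      rwa [hγq] at h2
    have hcop' : IsCoprime (γ : ℤ) (M : ℤ) := Nat.isCoprime_iff_coprime.mpr hcop
    have hcop2 : IsCoprime (γ : ℤ) (2 : ℤ) := by
      have : Nat.Coprime γ 2 := hcop.coprime_dvd_right hM.even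
      exact Nat.isCoprime_iff_coprime.mpr this
    have hD : 1 ≤ γ * M := Nat.mul_pos hγ1 hM.pos
    have hsub : Q.filter (fun q => g q = γ) ⊆
        ((Q.filter (fun q => g q = γ)).image Prod.fst) ×ˢ ((Q.filter (fun q => g q = γ)).image Prod.snd) := by
      intro q hq
      rw [Finset.mem_product]
      exact ⟨Finset.mem_image_of_mem _ hq, Finset.mem_image_of_mem _ hq⟩
    have hc1 : (((Q.filter (fun q => g q = γ)).image Prod.fst).card : ℝ) ≤ ρ * X / (γ * M : ℕ) + 1 := by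
      refine card_cls _ x₁ (ρ * X) (γ * M) hD (by positivity) ?_ ?_
      · intro x hx
        obtain ⟨q, hq, rfl⟩ := Finset.mem_image.mp hx
        obtain ⟨hqQ, hqg⟩ := Finset.mem_filter.mp hq
        obtain ⟨-, -, -, -, h1, h2, -⟩ := hQ q hqQ
        exact ⟨h1, h2⟩
      · intro x hx y hy
        obtain ⟨q, hq, rfl⟩ := Finset.mem_image.mp hx
        obtain ⟨q', hq', rfl⟩ := Finset.mem_image.mp hy
        obtain ⟨hqQ, hqg⟩ := Finset.mem_filter.mp hq
        obtain ⟨hqQ', hqg'⟩ := Finset.mem_filter.mp hq'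
        obtain ⟨-, -, -, -, -, -, -, -, h1, -, -, -, h2, -⟩ := hQ q hqQ
        obtain ⟨-, -, -, -, -, -, -, -, h1', -, -, -, h2', -⟩ := hQ q' hqQ'
        rw [hqg] at h2
        rw [hqg'] at h2'
        push_cast
        apply hcop'.mul_dvd
        · exact dvd_sub h2 h2'
        · have := dvd_sub h1 h1'
          have e : q.1 - x₀ - (q'.1 - x₀) = q.1 - q'.1 := by ring
          rwa [e] at this
    have hc2 : (((Q.filter (fun q => g q = γ)).image Prod.snd).card : ℝ) ≤ σ * X / (γ * M : ℕ) + 1 := by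
      refine card_cls _ y₁ (σ * X) (γ * M) hD (by positivity) ?_ ?_
      · intro x hx
        obtain ⟨q, hq, rfl⟩ := Finset.mem_image.mp hx
        obtain ⟨hqQ, hqg⟩ := Finset.mem_filter.mp hq
        obtain ⟨-, -, -, -, -, -, h1, h2, -⟩ := hQ q hqQ
        exact ⟨h1, h2⟩
      · intro x hx y hy
        obtain ⟨q, hq, rfl⟩ := Finset.mem_image.mp hx
        obtain ⟨q', hq', rfl⟩ := Finset.mem_image.mp hy
        obtain ⟨hqQ, hqg⟩ := Finset.mem_filter.mp hq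
        obtain ⟨hqQ', hqg'⟩ := Finset.mem_filter.mp hq'
        obtain ⟨-, -, -, -, -, -, -, -, -, h1, -, -, -, h2⟩ := hQ q hqQ
        obtain ⟨-, -, -, -, -, -, -, -, -, h1', -, -, -, h2'⟩ := hQ q' hqQ'
        rw [hqg] at h2
        rw [hqg'] at h2'
        have h3 : (γ : ℤ) ∣ q.2 := hcop2.dvd_of_dvd_mul_left h2
        have h3' : (γ : ℤ) ∣ q'.2 := hcop2.dvd_of_dvd_mul_left h2'
        push_cast
        apply hcop'.mul_dvd
        · exact dvd_sub h3 h3'
        · have := dvd_sub h1 h1'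
          have e : q.2 - y₀ - (q'.2 - y₀) = q.2 - q'.2 := by ring
          rwa [e] at this
    have hγr : (0 : ℝ) < γ := by exact_mod_cast hγ1
    calc ((Q.filter (fun q => g q = γ)).card : ℝ) ≤
        (((Q.filter (fun q => g q = γ)).image Prod.fst).card : ℝ) *
          (((Q.filter (fun q => g q = γ)).image Prod.snd).card : ℝ) := by
          have := Finset.card_le_card hsub
          rw [Finset.card_product] at this
          exact_mod_cast this
      _ ≤ (ρ * X / (γ * M : ℕ) + 1) * (σ * X / (γ * M : ℕ) + 1) :=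
          mul_le_mul hc1 hc2 (Nat.cast_nonneg _) (by positivity)
      _ = _ := by push_cast; ring
  -- the terms
  have hterm : ∀ γ ∈ Q.image g, ((Q.filter (fun q => g q = γ)).card : ℝ) *
      ((tn γ : ℝ) * √(γ : ℝ) * (1 + ν * (γ : ℝ) / X)) ≤
      (ρ * σ) / (M : ℝ) ^ 2 * X ^ 2 * f1 γ + K * X * f2 γ := by
    intro γ hγ
    obtain ⟨q₀, hq₀, hγq⟩ := Finset.mem_image.mp hγ
    have hγ1 : 1 ≤ γ := by
      have := hgZ q₀ hq₀
      omega
    have hγr : (0 : ℝ) < γ := by exact_mod_cast hγ1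
    have hγX : (γ : ℝ) ≤ κ * X := by
      have := hgX q₀ hq₀
      rwa [hγq] at this
    have h1 := alg_bound ρ σ κ ν M (X / γ) hρ.le hσ.le hκ.le hν hM1 (by positivity) (by
      rw [← mul_div_assoc, le_div_iff₀ hγr]
      linarith)
    rw [← hK] at h1
    have e1 : ρ * (X / γ) / M = ρ * X / (γ * M) := by field_simp
    have e2 : σ * (X / γ) / M = σ * X / (γ * M) := by field_simp
    have e3 : ν / (X / γ) = ν * γ / X := by field_simp
    rw [e1, e2, e3] at h1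
    have h2 := hcount γ hγ
    have h3 : 0 ≤ (tn γ : ℝ) * √(γ : ℝ) := by positivity
    calc ((Q.filter (fun q => g q = γ)).card : ℝ) * ((tn γ : ℝ) * √(γ : ℝ) * (1 + ν * (γ : ℝ) / X))
        ≤ ((ρ * X / (γ * M) + 1) * (σ * X / (γ * M) + 1)) *
          ((tn γ : ℝ) * √(γ : ℝ) * (1 + ν * (γ : ℝ) / X)) :=
          mul_le_mul_of_nonneg_right h2 (by positivity)
      _ = ((tn γ : ℝ) * √(γ : ℝ)) *
          ((1 + ν * (γ : ℝ) / X) * ((ρ * X / (γ * M) + 1) * (σ * X / (γ * M) + 1))) := by ring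
      _ ≤ ((tn γ : ℝ) * √(γ : ℝ)) * (ρ * σ * (X / γ) ^ 2 / M ^ 2 + K * (X / γ)) :=
          mul_le_mul_of_nonneg_left h1 h3
      _ = _ := by
          unfold f1 f2
          field_simp
  -- the sum
  have hsum : ∑ q ∈ Q, (tn (g q) : ℝ) * √(g q : ℝ) * (1 + ν * (g q : ℝ) / X) =
      ∑ γ ∈ Q.image g, ((Q.filter (fun q => g q = γ)).card : ℝ) *
        ((tn γ : ℝ) * √(γ : ℝ) * (1 + ν * (γ : ℝ) / X)) := by
    rw [← Finset.sum_fiberwise_of_maps_to (t := Q.image g) (fun q hq => Finset.mem_image_of_mem g hq)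
      (fun q => (tn (g q) : ℝ) * √(g q : ℝ) * (1 + ν * (g q : ℝ) / X))]
    refine Finset.sum_congr rfl fun γ _ => ?_
    rw [← nsmul_eq_mul, ← Finset.sum_const]
    refine Finset.sum_congr rfl fun q hq => ?_
    rw [(Finset.mem_filter.mp hq).2]
  rw [hsum]
  have hG1 : ∑ γ ∈ Q.image g, f1 γ ≤ et Z := by
    refine sum_f1_le Z _ fun γ hγ => ?_
    obtain ⟨q₀, hq₀, rfl⟩ := Finset.mem_image.mp hγ
    exact hgZ q₀ hq₀
  have hG2 : ∑ γ ∈ Q.image g, f2 γ ≤ ε / (2 * κ * K) * (2 * κ * X) := by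
    obtain ⟨n, hn⟩ : ∃ n : ℕ, n = ⌊κ * X⌋₊ + 1 := ⟨_, rfl⟩
    have hsub : Q.image g ⊆ Finset.range n := by
      intro γ hγ
      obtain ⟨q₀, hq₀, rfl⟩ := Finset.mem_image.mp hγ
      rw [Finset.mem_range, hn, Nat.lt_succ_iff]
      exact Nat.le_floor (hgX q₀ hq₀)
    have hn1 : κ * X < n := by
      rw [hn]
      push_cast
      exact Nat.lt_floor_add_one _
    have hn2 : (n : ℝ) ≤ 2 * κ * X := by
      rw [hn]
      push_cast
      have h1 := Nat.floor_le (show 0 ≤ κ * X by positivity)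
      have h2 : 1 ≤ κ * X := by
        rw [div_le_iff₀ hκ] at hX2
        linarith
      linarith
    have hn3 : n₀ ≤ n := by
      have h1 : (n₀ : ℝ) ≤ κ * X := by
        rw [div_le_iff₀ hκ] at hX3
        linarith
      have h2 : (n₀ : ℝ) ≤ n := h1.trans hn1.le
      exact_mod_cast h2
    have h1 := hn₀ n hn3
    have hnpos : (0 : ℝ) < n := lt_of_le_of_lt (by positivity) hn1
    have h2 : ∑ i ∈ Finset.range n, f2 i ≤ ε / (2 * κ * K) * n := by
      have h3 : (n : ℝ)⁻¹ * ∑ i ∈ Finset.range n, f2 i < ε / (2 * κ * K) := h1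
      rw [inv_mul_lt_iff₀ hnpos] at h3
      linarith
    calc ∑ γ ∈ Q.image g, f2 γ ≤ ∑ i ∈ Finset.range n, f2 i :=
          Finset.sum_le_sum_of_subset_of_nonneg hsub fun _ _ _ => f2_nonneg _
      _ ≤ ε / (2 * κ * K) * n := h2
      _ ≤ _ := mul_le_mul_of_nonneg_left hn2 (by positivity)
  calc ∑ γ ∈ Q.image g, ((Q.filter (fun q => g q = γ)).card : ℝ) *
        ((tn γ : ℝ) * √(γ : ℝ) * (1 + ν * (γ : ℝ) / X))
      ≤ ∑ γ ∈ Q.image g, ((ρ * σ) / (M : ℝ) ^ 2 * X ^ 2 * f1 γ + K * X * f2 γ) :=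
        Finset.sum_le_sum hterm
    _ = (ρ * σ) / (M : ℝ) ^ 2 * X ^ 2 * (∑ γ ∈ Q.image g, f1 γ) + K * X * ∑ γ ∈ Q.image g, f2 γ := by
        rw [Finset.sum_add_distrib, Finset.mul_sum, Finset.mul_sum]
    _ ≤ (ρ * σ) / (M : ℝ) ^ 2 * X ^ 2 * et Z + K * X * (ε / (2 * κ * K) * (2 * κ * X)) := by
        gcongr
    _ = (et Z * (ρ * σ) / (M : ℝ) ^ 2 + ε) * X ^ 2 := by
        field_simp

end Pool.Agent.L0h56.AV
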